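import Pool.Agent.H33.HC.TC
import Pool.Agent.H13.HH.BSG

/-!
# MP_347b49_nt, row BSZ of the board hcz_modules: the sum over the ideals prime to the small primes
-/

set_option autoImplicit false

open NumberField Complex Filter Topology MeasureTheory
open scoped ContDiff nonZeroDivisors

namespace Pool.Agent.H59.HC

open Pool.Agent.H33.HC Pool.Agent.H33.HH Pool.Agent.H28.RC Pool.Agent.H37.CV
open Pool.Agent.H3.CV (nm_idS nm_mul idS_ne idS_dvd)
open Pool.Agent.H13.HH (bsg_fin_NI bsg_ie bsg_nm_pos)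

noncomputable section

variable {K : Type} [Field K] [NumberField K]

theorem gc_zero (h : T_GSC) {G : ℝ → ℝ} (hG : IsG G) {Z t : ℝ} (hZ : 0 < Z) {s : ℂ} (hs : Nr s)
    (ht : 6 * Z < t) : gc G Z s t = 0 := by
  unfold gc
  rw [((h G hG).1 s hs).2.2.1 _ (by rw [le_div_iff₀ hZ]; exact ht.le), mul_zero]

theorem gc_mul (G : ℝ → ℝ) {Z a t : ℝ} (ha : 0 < a) (ht : 0 < t) (s : ℂ) :
    gc G Z s (a * t) = (a : ℂ) ^ (-s) * gc G (Z / a) s t := by
  unfold gc
  have h3 : a * t / Z = t / (Z / a) := by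
    rw [div_div_eq_mul_div, mul_comm]
  rw [h3, Complex.ofReal_mul, Complex.mul_cpow_ofReal_nonneg ha.le ht.le, mul_assoc]

open scoped Classical in
/-- the part of the multiples of `idS T` -/
theorem bsz_part {G : ℝ → ℝ} {Z : ℝ} {s : ℂ} (ψ : Ideal (𝓞 K) → ℂ)
    (hψ : ∀ I J, ψ (I * J) = ψ I * ψ J) (T : Finset (PrI K)) :
    ∑' m : NI K, (if ∀ p ∈ T, m.1 ≤ p.1 then (1 : ℂ) else 0) * (gc G Z s (nm m.1) * ψ m.1) =
      ((nS np T : ℝ) : ℂ) ^ (-s) * ψ (idS T) * SGz G (Z / nS np T) s ψ := by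
  let i : NI K → NI K := fun m => ⟨idS T * m.1, mul_ne_zero (idS_ne T) m.2⟩
  have hi : Function.Injective i := by
    intro a b h
    have h1 : idS T * a.1 = idS T * b.1 := congrArg Subtype.val h
    exact Subtype.ext (mul_left_cancel₀ (idS_ne T) h1)
  have hsub : Function.support (fun m : NI K => (if ∀ p ∈ T, m.1 ≤ p.1 then (1 : ℂ) else 0) *
        (gc G Z s (nm m.1) * ψ m.1)) ⊆ Set.range i := by
    intro m hm
    have h1 : ∀ p ∈ T, m.1 ≤ p.1 := by
      by_contra h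
      exact hm (by simp only [if_neg h, zero_mul])
    obtain ⟨J, hJ⟩ := idS_dvd h1
    have hJ0 : J ≠ ⊥ := by
      rintro rfl
      exact m.2 (by rw [hJ]; exact mul_zero _)
    exact ⟨⟨J, hJ0⟩, Subtype.ext hJ.symm⟩
  rw [← hi.tsum_eq hsub]
  unfold SGz
  rw [← tsum_mul_left]
  refine tsum_congr fun m => ?_
  have h1 : ∀ p ∈ T, (i m).1 ≤ p.1 := by
    intro p hp
    refine Ideal.mul_le_left.trans (Ideal.le_of_dvd ?_)
    exact Finset.dvd_prod_of_mem (fun p : PrI K => p.1) hp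
  have hT : 0 < nS np T := by
    rw [← nm_idS]
    exact bsg_nm_pos (idS_ne T)
  have hm : 0 < nm m.1 := bsg_nm_pos m.2
  rw [if_pos h1, one_mul]
  show gc G Z s (nm (idS T * m.1)) * ψ (idS T * m.1) = _
  rw [hψ, nm_mul, nm_idS, gc_mul G hT hm]
  ring

open scoped Classical in
theorem pf_BSZ (h : T_GSC) : T_BSZ := by
  intro K _ _ _ P Z G s hG hZ hs ψ hψ hψ1 hψt
  unfold sumZ
  have h1 : ∀ m : NI K, (if Cp P m.1 then gc G Z s (nm m.1) * ψ m.1 else 0) =
      ∑ T ∈ (SP K P).powerset, (-1 : ℂ) ^ T.card *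
        ((if ∀ p ∈ T, m.1 ≤ p.1 then (1 : ℂ) else 0) * (gc G Z s (nm m.1) * ψ m.1)) := by
    intro m
    have h2 : (if Cp P m.1 then gc G Z s (nm m.1) * ψ m.1 else 0) =
        (if Cp P m.1 then (1 : ℂ) else 0) * (gc G Z s (nm m.1) * ψ m.1) := by
      split_ifs <;> simp
    rw [h2, bsg_ie, Finset.sum_mul]
    exact Finset.sum_congr rfl fun T _ => by ring
  rw [tsum_congr h1, Summable.tsum_finsetSum]
  · refine Finset.sum_congr rfl fun T _ => ?_
    rw [tsum_mul_left, bsz_part ψ hψ T]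
    ring
  · intro T _
    refine summable_of_hasFiniteSupport ((bsg_fin_NI (6 * Z)).subset fun m hm => ?_)
    by_contra hn
    refine hm ?_
    have h3 : 6 * Z < nm m.1 := not_le.1 hn
    show (-1 : ℂ) ^ T.card * (_ * (gc G Z s (nm m.1) * ψ m.1)) = 0
    rw [gc_zero h hG hZ hs h3]
    simp

end

end Pool.Agent.H59.HC
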