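import Pool.Agent.H33.HC.TC
import Pool.Agent.H3.CV.GC
import Pool.Agent.H96.CV.Basic

/-!
# MP_347b49_nt, row MVC of the board hcz_modules: the mollified sum is close to the mollified value
-/

set_option autoImplicit false

open NumberField Complex Filter Topology MeasureTheory
open scoped ContDiff nonZeroDivisors

namespace Pool.Agent.H59.HC

open Pool.Agent.H33.HC Pool.Agent.H33.HH Pool.Agent.H28.RC Pool.Agent.H37.CV
open Pool.Agent.H65.CRZ

section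

variable {K : Type} [Field K] [NumberField K]

omit [NumberField K] in
theorem mvc_psi_le (χ : RCC K) (I : Ideal (𝓞 K)) : ‖χ.ψ I‖ ≤ 1 := by
  by_cases h0 : I = ⊥
  · rw [h0, χ.map_bot, norm_zero]
    exact zero_le_one
  · by_cases h1 : I ⊔ χ.f = ⊤
    · exact (χ.norm_one I h0 h1).le
    · rw [χ.eq_zero I h1, norm_zero]
      exact zero_le_one

theorem mvc_idS_inj : Function.Injective (idS : Finset (PrI K) → Ideal (𝓞 K)) := by
  have key : ∀ S T : Finset (PrI K), idS S = idS T → S ⊆ T := by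
    intro S T h P hP
    refine Pool.Agent.H3.CV.idS_le ?_
    rw [← h]
    exact Ideal.dvd_iff_le.1 (Finset.dvd_prod_of_mem _ hP)
  intro S T h
  exact Finset.Subset.antisymm (key S T h) (key T S h.symm)

theorem mvc_nS_le (S : Finset (PrI K)) {s : ℂ} (hs : 0 ≤ s.re) :
    ‖((nS np S : ℝ) : ℂ) ^ (-s)‖ ≤ 1 := by
  have h1 := Pool.Agent.H96.CV.one_le_nS S
  rw [Complex.norm_cpow_eq_rpow_re_of_pos (by linarith)]
  exact Real.rpow_le_one_of_one_le_of_nonpos h1 (by rw [Complex.neg_re]; linarith)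

theorem mvc_nr_re {s : ℂ} (hs : Nr s) : 7 / 16 ≤ s.re ∧ s.re ≤ 9 / 16 := by
  unfold Nr at hs
  rw [abs_le] at hs
  constructor <;> linarith [hs.1, hs.2]

/-- the mollifier is small -/
theorem mvc_mlz_le (hCX : T_CX) (C1 : ℝ) (hC1 : ∀ (x : ℝ) (X : Finset (Ideal (𝓞 K))), 1 ≤ x →
    (∀ I ∈ X, I ≠ ⊥ ∧ nm I ≤ x) → (X.card : ℝ) ≤ C1 * x) (P y : ℝ) (hy : 1 ≤ y) (χ : RCC K)
    {z : ℂ} (hz : Nr z) : ‖mlz P y χ.ψ z‖ ≤ C1 * y := by
  classical
  obtain ⟨-, -, h3⟩ := hCX (PrI K) np (AP K P y) y Pool.Agent.H96.CV.two_le_np hy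
  have hsub : ∀ S ∈ DP K P y, S ⊆ AP K P y ∧ nS np S ≤ y := by
    intro S hS
    unfold DP DS at hS
    rw [Finset.mem_filter, Finset.mem_powerset] at hS
    exact hS
  have h4 : ∀ S ∈ DP K P y,
      ‖(lm K P y S : ℂ) * χ.ψ (idS S) * ((nS np S : ℝ) : ℂ) ^ (-z)‖ ≤ 1 := by
    intro S hS
    rw [norm_mul, norm_mul, Complex.norm_real, Real.norm_eq_abs]
    have h5 : |lm K P y S| ≤ 1 := h3 S (hsub S hS).1
    have h6 := mvc_nS_le S (s := z) (by linarith [(mvc_nr_re hz).1])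
    have h7 := mvc_psi_le χ (idS S)
    calc |lm K P y S| * ‖χ.ψ (idS S)‖ * ‖((nS np S : ℝ) : ℂ) ^ (-z)‖ ≤ 1 * 1 * 1 := by gcongr
      _ = 1 := by norm_num
  unfold mlz
  calc ‖∑ S ∈ DP K P y, (lm K P y S : ℂ) * χ.ψ (idS S) * ((nS np S : ℝ) : ℂ) ^ (-z)‖
      ≤ ∑ S ∈ DP K P y, (1 : ℝ) := norm_sum_le_of_le _ h4
    _ = ((DP K P y).image idS).card := by
      rw [Finset.sum_const, nsmul_eq_mul, mul_one, Finset.card_image_of_injective _ mvc_idS_inj]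
    _ ≤ C1 * y := by
      refine hC1 y _ hy fun I hI => ?_
      obtain ⟨S, hS, rfl⟩ := Finset.mem_image.1 hI
      refine ⟨Pool.Agent.H3.CV.idS_ne S, ?_⟩
      rw [Pool.Agent.H3.CV.nm_idS]
      exact (hsub S hS).2

theorem mvc_two {s : ℂ} (hs : Nr s) : ‖(2 : ℂ) ^ (s - 1)‖ ≤ 4 / 5 := by
  have h1 := (mvc_nr_re hs).2
  have h2 : ‖((2 : ℝ) : ℂ) ^ (s - 1)‖ = (2 : ℝ) ^ (s - 1).re :=
    Complex.norm_cpow_eq_rpow_re_of_pos two_pos _
  rw [Complex.ofReal_ofNat] at h2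
  rw [h2, Complex.sub_re, Complex.one_re]
  have h3 : (2 : ℝ) ^ (s.re - 1) ≤ (2 : ℝ) ^ (-(1 / 3) : ℝ) :=
    Real.rpow_le_rpow_of_exponent_le one_le_two (by linarith)
  refine h3.trans ?_
  have h4 : (5 / 4 : ℝ) ≤ (2 : ℝ) ^ (1 / 3 : ℝ) := by
    have h5 : (5 / 4 : ℝ) = ((5 / 4 : ℝ) ^ (3 : ℕ)) ^ (1 / 3 : ℝ) := by
      rw [← Real.rpow_natCast, ← Real.rpow_mul (by norm_num)]
      norm_num
    rw [h5]
    exact Real.rpow_le_rpow (by norm_num) (by norm_num) (by norm_num)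
  rw [Real.rpow_neg two_pos.le, inv_le_comm₀ (by positivity) (by norm_num)]
  linarith

theorem mvc_cpow (T : Finset (PrI K)) (s : ℂ) :
    ((nS np T : ℝ) : ℂ) ^ (-s) = ∏ p ∈ T, ((np p : ℝ) : ℂ) ^ (-s) := by
  classical
  induction T using Finset.induction_on with
  | empty =>
    unfold nS
    simp
  | insert a T ha ih =>
    rw [Finset.prod_insert ha, ← ih]
    have h1 : nS np (insert a T) = np a * nS np T := by
      unfold nS
      rw [Finset.prod_insert ha]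
    rw [h1, Complex.ofReal_mul, Complex.mul_cpow_ofReal_nonneg
      (Pool.Agent.H96.CV.np_pos a).le (Pool.Agent.H96.CV.nS_pos T).le]

theorem mvc_psi (χ : RCC K) (T : Finset (PrI K)) : χ.ψ (idS T) = ∏ p ∈ T, χ.ψ p.1 := by
  classical
  induction T using Finset.induction_on with
  | empty =>
    unfold idS
    rw [Finset.prod_empty, Finset.prod_empty, Ideal.one_eq_top, χ.map_one]
  | insert a T ha ih =>
    rw [Finset.prod_insert ha, ← ih, ← χ.map_mul]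
    congr 1
    unfold idS
    rw [Finset.prod_insert ha]

/-- the Euler factors at the small primes -/
theorem mvc_EP (P : ℝ) (χ : RCC K) (s : ℂ) :
    EP P χ.ψ s = ∑ T ∈ (SP K P).powerset, (-1 : ℂ) ^ T.card *
      ((nS np T : ℝ) : ℂ) ^ (-s) * χ.ψ (idS T) := by
  classical
  unfold EP
  have h1 : ∀ p ∈ SP K P, (1 - χ.ψ p.1 * ((np p : ℝ) : ℂ) ^ (-s)) =
      -(χ.ψ p.1 * ((np p : ℝ) : ℂ) ^ (-s)) + 1 := fun p _ => by ring
  rw [Finset.prod_congr rfl h1, Finset.prod_add]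
  refine Finset.sum_congr rfl fun T _ => ?_
  rw [Finset.prod_const_one, mul_one, mvc_cpow, mvc_psi, Finset.prod_neg,
    Finset.prod_mul_distrib]
  ring

end

theorem pf_MVC (h1 : T_BQS) (h2 : T_BSZ) (h3 : T_SGE) (h4 : T_SSC2)
    (_h5 : Pool.Agent.H33.HH.T_IDF) (hCX : T_CX) (hDV : T_DV) : T_MVC := by
  classical
  intro K _ _ _ G hG P κ θ e hκ hθ hθ1 he
  -- the parameter `k`
  obtain ⟨k0, hk0⟩ := exists_nat_ge (2 * (15 + 3 * e) / e + 2)
  set k : ℕ := max k0 9 with hk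
  have hk9 : 9 ≤ k := le_max_right _ _
  have hkr : 2 * (15 + 3 * e) / e + 2 ≤ (k : ℝ) :=
    hk0.trans (by exact_mod_cast le_max_left k0 9)
  have hk9' : (9 : ℝ) ≤ k := by exact_mod_cast hk9
  have hke : e * (1 - (k : ℝ) / 2) ≤ -(15 + 3 * e) := by
    have h1 : 2 * (15 + 3 * e) / e ≤ (k : ℝ) - 2 := by linarith
    rw [div_le_iff₀ he] at h1
    nlinarith
  obtain ⟨C, hC0, hC⟩ := h4 K G hG k hk9
  obtain ⟨-, C1, hC1⟩ := hDV K
  have hC1' : ∀ (x : ℝ) (X : Finset (Ideal (𝓞 K))), 1 ≤ x →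
      (∀ I ∈ X, I ≠ ⊥ ∧ nm I ≤ x) → (X.card : ℝ) ≤ C1 * x := fun x X hx hX => (hC1 x X hx hX).1
  have hC10 : 0 ≤ C1 := by
    have := hC1' 1 ∅ le_rfl (by simp)
    simpa using this
  set N0 : ℝ := nS np (SP K P) with hN0
  have hN01 : 1 ≤ N0 := Pool.Agent.H96.CV.one_le_nS _
  have hN0p : 0 < N0 := by linarith
  set M : ℝ := ((SP K P).powerset.card : ℝ) with hM
  have hM0 : 0 ≤ M := Nat.cast_nonneg _
  set D : ℝ := (κ * N0) ^ (-(1 - (k : ℝ) / 2)) with hD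
  have hD0 : 0 ≤ D := Real.rpow_nonneg (by positivity) _
  set C' : ℝ := C1 * (M * (45 * (C * κ * D))) with hC'
  have hC'0 : 0 ≤ C' := by positivity
  set Q1 : ℝ := (κ * N0) ^ (1 / e) with hQ1
  refine ⟨C', k, max 1 Q1, hC'0, Nat.cast_nonneg _, le_max_left _ _,
    fun Q hQ χ hf hfQ s z hs hz => ?_⟩
  have hQ1' : 1 ≤ Q := (le_max_left _ _).trans hQ
  have hQQ1 : Q1 ≤ Q := (le_max_right _ _).trans hQ
  have hQ0 : 0 < Q := by linarith
  have hy1 : 1 ≤ Q ^ θ := Real.one_le_rpow hQ1' hθ.le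
  have hZp : 0 < Q ^ (1 + e) := Real.rpow_pos_of_pos hQ0 _
  have hQe : κ * N0 ≤ Q ^ e := by
    have h1 : Q1 ^ e ≤ Q ^ e := Real.rpow_le_rpow (Real.rpow_nonneg (by positivity) _) hQQ1 he.le
    rwa [hQ1, ← Real.rpow_mul (by positivity), one_div_mul_cancel he.ne', Real.rpow_one] at h1
  have hQ1e : Q ^ (1 + e) = Q * Q ^ e := by
    rw [Real.rpow_add hQ0, Real.rpow_one]
  have hnf := Pool.Agent.H96.CV.one_le_nm χ.f_ne
  have hnf0 : 0 < nm χ.f := by linarith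
  have hsr := mvc_nr_re hs
  have hs1 : |s.re| ≤ 1 := by
    rw [abs_le]
    constructor <;> linarith [hsr.1, hsr.2]
  set L : ℝ := (1 + |s.im|) ^ k with hL
  have hL0 : 0 ≤ L := by positivity
  rw [(h1 K P (Q ^ θ) (Q ^ (1 + e)) G s z hG hy1 hZp hs).2.2 χ.ψ χ.map_mul,
    h2 K P (Q ^ (1 + e)) G s hG hZp hs χ.ψ χ.map_mul (mvc_psi_le χ) χ.map_one]
  unfold ZP
  rw [mvc_EP]
  -- the bound for one smooth sum
  have hS : ∀ T ∈ (SP K P).powerset,
      ‖(-1 : ℂ) ^ T.card * ((nS np T : ℝ) : ℂ) ^ (-s) * χ.ψ (idS T) *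
        SGz G (Q ^ (1 + e) / nS np T) s χ.ψ -
        (-1 : ℂ) ^ T.card * ((nS np T : ℝ) : ℂ) ^ (-s) * χ.ψ (idS T) * Zx χ s‖ ≤
      45 * (C * κ * D) * L * Q ^ (-11 : ℝ) := by
    intro T hT
    rw [Finset.mem_powerset] at hT
    have hT1 : 1 ≤ nS np T := Pool.Agent.H96.CV.one_le_nS T
    have hT0 : 0 < nS np T := by linarith
    have hTN : nS np T ≤ N0 := by
      have h1 : nS np (SP K P \ T) * nS np T = nS np (SP K P) := Finset.prod_sdiff hT
      rw [hN0, ← h1]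
      exact le_mul_of_one_le_left hT0.le (Pool.Agent.H96.CV.one_le_nS _)
    set X : ℝ := Q ^ (1 + e) / nS np T with hX
    have hX0 : 0 < X := by positivity
    have hXlow : κ * Q * (Q ^ e / (κ * N0)) ≤ X := by
      rw [hX, hQ1e, le_div_iff₀ hT0]
      have h1 : κ * Q * (Q ^ e / (κ * N0)) * N0 = Q * Q ^ e := by
        field_simp
      calc κ * Q * (Q ^ e / (κ * N0)) * nS np T ≤ κ * Q * (Q ^ e / (κ * N0)) * N0 := by
            gcongr
        _ = Q * Q ^ e := h1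
    have hr1 : 1 ≤ Q ^ e / (κ * N0) := by
      rw [le_div_iff₀ (by positivity), one_mul]
      exact hQe
    have hXf : nm χ.f ≤ X := by
      refine hfQ.trans (le_trans ?_ hXlow)
      exact le_mul_of_one_le_right (by positivity) hr1
    have hXQ : X ≤ Q ^ (1 + e) := by
      rw [hX]
      exact div_le_self hZp.le hT1
    have g2 : (X / nm χ.f) ^ (1 - (k : ℝ) / 2) ≤ (Q ^ e / (κ * N0)) ^ (1 - (k : ℝ) / 2) := by
      refine Real.rpow_le_rpow_of_nonpos (by positivity) ?_ (by linarith)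
      rw [le_div_iff₀ hnf0]
      refine le_trans ?_ hXlow
      rw [mul_comm]
      gcongr
    have g3 : (Q ^ e / (κ * N0)) ^ (1 - (k : ℝ) / 2) = D * Q ^ (e * (1 - (k : ℝ) / 2)) := by
      rw [Real.div_rpow (by positivity) (by positivity), ← Real.rpow_mul hQ0.le, hD,
        Real.rpow_neg (by positivity)]
      ring
    set E : ℝ := C * L * (nm χ.f * X ^ 3 * (X / nm χ.f) ^ (1 - (k : ℝ) / 2)) with hE
    have hE0 : 0 ≤ E := by positivity
    have hEQ : E ≤ C * κ * D * L * Q ^ (-11 : ℝ) := by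
      calc E ≤ C * L * ((κ * Q) * (Q ^ (1 + e)) ^ 3 * (D * Q ^ (e * (1 - (k : ℝ) / 2)))) := by
            rw [hE, ← g3]
            gcongr
        _ = C * κ * D * L * (Q ^ (1 : ℝ) * Q ^ ((1 + e) * 3) * Q ^ (e * (1 - (k : ℝ) / 2))) := by
            have h7 : Q ^ ((1 + e) * 3) = (Q ^ (1 + e)) ^ (3 : ℕ) := by
              rw [Real.rpow_mul hQ0.le, ← Real.rpow_natCast]
              norm_num
            rw [Real.rpow_one, h7]
            ring
        _ = C * κ * D * L * Q ^ (1 + (1 + e) * 3 + e * (1 - (k : ℝ) / 2)) := by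
            rw [Real.rpow_add hQ0, Real.rpow_add hQ0]
        _ ≤ C * κ * D * L * Q ^ (-11 : ℝ) := by
            refine mul_le_mul_of_nonneg_left ?_ (by positivity)
            exact Real.rpow_le_rpow_of_exponent_le hQ1' (by linarith)
    have gA : ‖SG G X s χ.ψ - Zx χ s‖ ≤ E := by
      rw [hE]
      exact hC χ hf X hXf s hs1
    have gB : ‖SG G (2 * X) s χ.ψ - Zx χ s‖ ≤ 8 * E := by
      refine (hC χ hf (2 * X) (by linarith) s hs1).trans ?_
      have h5 : (2 * X / nm χ.f) ^ (1 - (k : ℝ) / 2) ≤ (X / nm χ.f) ^ (1 - (k : ℝ) / 2) := by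
        refine Real.rpow_le_rpow_of_nonpos (by positivity) ?_ (by linarith)
        gcongr
        linarith
      calc C * (1 + |s.im|) ^ k * (nm χ.f * (2 * X) ^ 3 * (2 * X / nm χ.f) ^ (1 - (k : ℝ) / 2))
          ≤ C * (1 + |s.im|) ^ k * (nm χ.f * (2 * X) ^ 3 * (X / nm χ.f) ^ (1 - (k : ℝ) / 2)) := by
            gcongr
        _ = 8 * E := by rw [hE, hL]; ring
    have hw := mvc_two hs
    set w : ℂ := (2 : ℂ) ^ (s - 1) with hwd
    have h1w : 1 / 5 ≤ ‖1 - w‖ := by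
      have h6 := norm_sub_norm_le (1 : ℂ) w
      rw [norm_one] at h6
      linarith
    have hw1 : 1 - w ≠ 0 := by
      intro h0
      rw [h0, norm_zero] at h1w
      linarith
    have hSz : ‖SGz G X s χ.ψ - Zx χ s‖ ≤ 45 * E := by
      have h6 : SGz G X s χ.ψ - Zx χ s =
          ((SG G X s χ.ψ - Zx χ s) - w * (SG G (2 * X) s χ.ψ - Zx χ s)) / (1 - w) := by
        rw [h3 K G X s χ.ψ hG hX0, ← hwd, eq_div_iff hw1, sub_mul, div_mul_cancel₀ _ hw1]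
        ring
      rw [h6, norm_div, div_le_iff₀ (lt_of_lt_of_le (by norm_num) h1w)]
      calc ‖SG G X s χ.ψ - Zx χ s - w * (SG G (2 * X) s χ.ψ - Zx χ s)‖
          ≤ ‖SG G X s χ.ψ - Zx χ s‖ + ‖w‖ * ‖SG G (2 * X) s χ.ψ - Zx χ s‖ := by
            rw [← norm_mul]
            exact norm_sub_le _ _
        _ ≤ E + 1 * (8 * E) := by
            gcongr
            linarith
        _ = 45 * E * (1 / 5) := by ring
        _ ≤ 45 * E * ‖1 - w‖ := mul_le_mul_of_nonneg_left h1w (by linarith)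
    rw [← mul_sub, norm_mul, norm_mul, norm_mul, norm_pow, norm_neg, norm_one, one_pow, one_mul]
    have h5 := mvc_nS_le T (s := s) (by linarith [hsr.1])
    have h6 := mvc_psi_le χ (idS T)
    calc ‖((nS np T : ℝ) : ℂ) ^ (-s)‖ * ‖χ.ψ (idS T)‖ * ‖SGz G X s χ.ψ - Zx χ s‖ ≤
        1 * 1 * (45 * E) := by gcongr
      _ ≤ 45 * (C * κ * D) * L * Q ^ (-11 : ℝ) := by linarith
  have hsum : ‖∑ T ∈ (SP K P).powerset, (-1 : ℂ) ^ T.card * ((nS np T : ℝ) : ℂ) ^ (-s) *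
      χ.ψ (idS T) * SGz G (Q ^ (1 + e) / nS np T) s χ.ψ -
      ∑ T ∈ (SP K P).powerset, (-1 : ℂ) ^ T.card * ((nS np T : ℝ) : ℂ) ^ (-s) *
      χ.ψ (idS T) * Zx χ s‖ ≤ M * (45 * (C * κ * D) * L * Q ^ (-11 : ℝ)) := by
    rw [← Finset.sum_sub_distrib]
    refine (norm_sum_le_of_le _ hS).trans (le_of_eq ?_)
    rw [Finset.sum_const, nsmul_eq_mul]
  have hmol := mvc_mlz_le hCX C1 hC1' P (Q ^ θ) hy1 χ hz
  have hfac : mlz P (Q ^ θ) χ.ψ z * ∑ T ∈ (SP K P).powerset, (-1 : ℂ) ^ T.card *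
      ((nS np T : ℝ) : ℂ) ^ (-s) * χ.ψ (idS T) * SGz G (Q ^ (1 + e) / nS np T) s χ.ψ -
      Zx χ s * (∑ T ∈ (SP K P).powerset, (-1 : ℂ) ^ T.card *
        ((nS np T : ℝ) : ℂ) ^ (-s) * χ.ψ (idS T)) * mlz P (Q ^ θ) χ.ψ z =
      mlz P (Q ^ θ) χ.ψ z * (∑ T ∈ (SP K P).powerset, (-1 : ℂ) ^ T.card *
        ((nS np T : ℝ) : ℂ) ^ (-s) * χ.ψ (idS T) * SGz G (Q ^ (1 + e) / nS np T) s χ.ψ -
        ∑ T ∈ (SP K P).powerset, (-1 : ℂ) ^ T.card * ((nS np T : ℝ) : ℂ) ^ (-s) *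
        χ.ψ (idS T) * Zx χ s) := by
    rw [← Finset.sum_mul]
    ring
  rw [hfac, norm_mul, Real.rpow_natCast]
  calc _ ≤ C1 * Q ^ θ * (M * (45 * (C * κ * D) * L * Q ^ (-11 : ℝ))) :=
        mul_le_mul hmol hsum (norm_nonneg _) (by positivity)
    _ ≤ C1 * Q ^ (1 : ℝ) * (M * (45 * (C * κ * D) * L * Q ^ (-11 : ℝ))) := by
        have h8 : Q ^ θ ≤ Q ^ (1 : ℝ) := Real.rpow_le_rpow_of_exponent_le hQ1' hθ1
        gcongr
    _ = C' * L * (Q ^ (1 : ℝ) * Q ^ (-11 : ℝ)) := by rw [hC']; ring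
    _ = C' * L * Q ^ (-10 : ℝ) := by
        rw [← Real.rpow_add hQ0]
        norm_num

end Pool.Agent.H59.HC
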