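import Pool.Agent.H33.HC.TC

/-!
# MP_347b49_nt, row PSS of the board hcz_modules: the upper bound by positivity, summed over the
conductors
-/

set_option autoImplicit false

open NumberField Complex Filter Topology MeasureTheory
open scoped ContDiff nonZeroDivisors

namespace Pool.Agent.H59.HC

open Pool.Agent.H33.HC Pool.Agent.H33.HH Pool.Agent.H28.RC Pool.Agent.H37.CV

noncomputable section

variable {K : Type} [Field K] [NumberField K]

theorem pss_fin (x : ℝ) : {l : NI K | nm l.1 ≤ x}.Finite := by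
  have h := Ideal.finite_setOfPred_absNorm_le (S := 𝓞 K) ⌊x⌋₊
  refine Set.Finite.of_finite_image (f := Subtype.val) (h.subset ?_) Subtype.val_injective.injOn
  rintro _ ⟨p, hp, rfl⟩
  exact Nat.le_floor hp

/-- an ideal without small primes is prime to an ideal with small primes only -/
theorem pss_cop {P : ℝ} {k n : Ideal (𝓞 K)} (hk : Sm' P k) (hn : Cp P n) : n ⊔ k = ⊤ := by
  by_contra hne
  obtain ⟨M, hM, hle⟩ := Ideal.exists_le_maximal _ hne
  have hkM : k ≤ M := le_trans le_sup_right hle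
  have hnM : n ≤ M := le_trans le_sup_left hle
  have hM0 : M ≠ ⊥ := by
    rintro rfl
    exact hk.1 (le_bot_iff.1 hkM)
  have h1 := hk.2 ⟨M, hM.isPrime, hM0⟩ hkM
  have h2 := hn ⟨M, hM.isPrime, hM0⟩ hnM
  linarith

open scoped Classical in
theorem pf_PSS (h : T_PSC2) : T_PSS := by
  intro K _ _ _ P Q W k c hQ hW hW1 hk hfin hcn
  have hF := pss_fin (K := K) Q
  have hz : ∀ q : NI K, q ∉ hF.toFinset → W (nm q.1 / Q) = 0 := by
    intro q hq
    rw [Set.Finite.mem_toFinset] at hq
    have h1 : Q < nm q.1 := not_le.1 hq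
    exact hW.high _ (by rw [le_div_iff₀ hQ, one_mul]; exact h1.le)
  have hhc : 0 ≤ hc K := Nat.cast_nonneg _
  have hwu : 0 ≤ wu K := Nat.cast_nonneg _
  -- both sides as finite sums
  have hL : FW P Q W k (fun χ => ‖∑ᶠ n : Ideal (𝓞 K), c n * χ.ψ n‖ ^ 2) =
      ∑ q ∈ hF.toFinset, if Cp P q.1 then
        W (nm q.1 / Q) * ∑ᶠ χ ∈ Pr K (k * q.1), ‖∑ᶠ n : Ideal (𝓞 K), c n * χ.ψ n‖ ^ 2 else 0 := by
    unfold FW sumC
    refine tsum_eq_sum fun q hq => ?_
    beta_reduce
    rw [hz q hq, zero_mul, ite_self]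
  have hR : ∀ S : Finset (PrI K), (sumZ P fun q => ((W (nm q / Q) * nm q : ℝ) : ℂ) *
        QQ2 (qu k S * q) c (fun n => (starRingEnd ℂ) (c n))).re =
      ∑ q ∈ hF.toFinset, if Cp P q.1 then W (nm q.1 / Q) * nm q.1 *
        (QQ2 (qu k S * q.1) c (fun n => (starRingEnd ℂ) (c n))).re else 0 := by
    intro S
    unfold sumZ
    rw [tsum_eq_sum (s := hF.toFinset), Complex.re_sum]
    · refine Finset.sum_congr rfl fun q _ => ?_
      split_ifs
      · rw [Complex.re_ofReal_mul]
      · rfl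
    · intro q hq
      beta_reduce
      rw [hz q hq]
      simp
  rw [hL]
  simp only [hR]
  have hsw : (hc K / wu K) * ∑ S ∈ (pf k).powerset, (-1) ^ S.card * ph (qu k S) *
      (∑ q ∈ hF.toFinset, if Cp P q.1 then W (nm q.1 / Q) * nm q.1 *
        (QQ2 (qu k S * q.1) c (fun n => (starRingEnd ℂ) (c n))).re else 0) =
      ∑ q ∈ hF.toFinset, if Cp P q.1 then W (nm q.1 / Q) * ((hc K * nm q.1 / wu K) *
        ∑ S ∈ (pf k).powerset, (-1) ^ S.card * ph (qu k S) *
          (QQ2 (qu k S * q.1) c (fun n => (starRingEnd ℂ) (c n))).re) else 0 := by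
    rw [Finset.mul_sum]
    simp only [Finset.mul_sum]
    rw [Finset.sum_comm]
    refine Finset.sum_congr rfl fun q _ => ?_
    split_ifs
    · refine Finset.sum_congr rfl fun S _ => ?_
      ring
    · simp
  rw [hsw]
  refine Finset.sum_le_sum fun q _ => ?_
  split_ifs with hq
  · by_cases hw : W (nm q.1 / Q) = 0
    · rw [hw, zero_mul, zero_mul]
    · refine mul_le_mul_of_nonneg_left ?_ (hW.bd _).1
      have hcop : k ⊔ q.1 = ⊤ := by
        rw [sup_comm]
        exact pss_cop hk hq
      have hne : k * q.1 ≠ ⊤ := by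
        intro htop
        have hq1 : q.1 = ⊤ := by
          rw [eq_top_iff, ← htop]
          exact Ideal.mul_le_right (I := k) (J := q.1)
        apply hw
        rw [hq1]
        have : nm (⊤ : Ideal (𝓞 K)) = 1 := by
          unfold nm
          rw [← Ideal.one_eq_top, map_one, Nat.cast_one]
        rw [this]
        exact hW1
      exact h K k q.1 c hk.1 q.2 hcop hne hfin (fun n hn => ⟨(hcn n hn).1, pss_cop hk (hcn n hn).2⟩)
  · exact le_rfl

end

end Pool.Agent.H59.HC
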